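import Pool.Agent.Lib.MP_4b1228_nt.GS.All2
import Pool.Agent.Lib.MP_4b1228_nt.GS.Cert

/-!
Primes `(2 q n) ^ 2 + b ^ 2` or `((2 n + 1) q) ^ 2 + b ^ 2` with a small `b`.
-/

namespace Pool.Agent.Lib.MP_4b1228_nt.Old.NearSquare

open Pool.Agent.Lib.MP_4b1228_nt.GS

theorem result (θ : ℝ) (hθ : 1 / 12 < θ) :
    {p : ℕ | p.Prime ∧ ∃ q n b : ℕ, q.Prime ∧ 0 < b ∧ (b : ℝ) < (p : ℝ) ^ θ ∧
      ((1 < n ∧ p = (2 * q * n) ^ 2 + b ^ 2) ∨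
        (1 ≤ n ∧ Even b ∧ p = ((2 * n + 1) * q) ^ 2 + b ^ 2))}.Infinite :=
  all2 (cert2 sign2 (str2 sign2)) θ hθ

end Pool.Agent.Lib.MP_4b1228_nt.Old.NearSquare
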